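import Pool.Agent.LPW.StmtsF

/-!
# Squad LPW, row IN2: two-parameter families with independent units
-/

set_option autoImplicit false

open Polynomial NumberField
open Pool.Agent.Helper85_Leo (LeopoldtAt)
open Pool.Agent.LUB (FullRank sp spr Exceptional Fam MainStmt)

namespace Pool.Agent.LPW.H24

/-- The point `T = 0` of the line through `P`. -/
theorem res_zero (f : (MvPolynomial (Fin 2) ℤ)[X]) (P v : Fin 2 → ℤ) :
    (res f P v).map (evalRingHom (0 : ℤ)) = spr2 f P := by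
  unfold res spr2
  rw [Polynomial.map_map]
  congr 1
  apply MvPolynomial.ringHom_ext
  · intro a
    simp
  · intro i
    simp

theorem res_monic {f : (MvPolynomial (Fin 2) ℤ)[X]} (hf : f.Monic) (P v : Fin 2 → ℤ) :
    (res f P v).Monic := hf.map _

theorem res_natDegree {f : (MvPolynomial (Fin 2) ℤ)[X]} (hf : f.Monic) (P v : Fin 2 → ℤ) :
    (res f P v).natDegree = f.natDegree := hf.natDegree_map _

theorem in2 : In2Stmt := by
  intro hUpw hIrr hFru hLni hCrg hNm2 p _ n r D ε hε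
  obtain ⟨B₁, h₁⟩ := hUpw p n r D ε hε
  obtain ⟨b, hb⟩ := hLni p n r D
  obtain ⟨B₂, h₂⟩ := hCrg (2 * (n * (D + D * D))) b ε hε
  refine ⟨max B₁ B₂, ?_⟩
  intro f u hF A hA lo N hN
  have hNε : (0 : ℝ) ≤ (N : ℝ) ^ (1 / 2 + ε) := Real.rpow_nonneg (Nat.cast_nonneg N) _
  let E : Set (Fin 2 → ℤ) := {P | P ∈ A ∧ ExcPt p n (spr2 f P) (fun i => spr2 (u i) P)}
  rcases hNm2 n r D f u hF with ⟨Φ, hΦ, hdeg, hvan⟩ | ⟨v, c, hvc⟩
  · have h := h₂ E (by
      intro G hG
      have e : {P : Fin 2 → ℤ | P ∈ E ∧ MvPolynomial.eval (fun i => (P i : ℚ)) G = 0} =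
          {P : Fin 2 → ℤ | P ∈ A ∧ MvPolynomial.eval (fun i => (P i : ℚ)) G = 0 ∧
            ExcPt p n (spr2 f P) (fun i => spr2 (u i) P)} := by
        ext P
        constructor
        · rintro ⟨⟨h1, h2⟩, h3⟩
          exact ⟨h1, h3, h2⟩
        · rintro ⟨h1, h3, h2⟩
          exact ⟨⟨h1, h2⟩, h3⟩
      rw [e]
      exact hb f u hF A hA G hG) Φ hΦ hdeg lo N hN
    have e : {P : Fin 2 → ℤ | P ∈ A ∧ (∀ i, lo i ≤ P i ∧ P i < lo i + N) ∧
        ExcPt p n (spr2 f P) (fun i => spr2 (u i) P)} =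
        {P : Fin 2 → ℤ | P ∈ E ∧ (∀ i, lo i ≤ P i ∧ P i < lo i + N) ∧
          MvPolynomial.eval P Φ = 0} := by
      ext P
      constructor
      · rintro ⟨h1, h2, h3⟩
        exact ⟨⟨h1, h3⟩, h2, hvan p P h3⟩
      · rintro ⟨⟨h1, h3⟩, h2, -⟩
        exact ⟨h1, h2, h3⟩
    rw [e]
    exact h.trans (mul_le_mul_of_nonneg_right (le_max_right _ _) hNε)
  · have hLF : LineFull f u E := by
      intro P hP w hw
      obtain ⟨hPA, K, iK, iN, θ, hθ, hgen, hrk, -, -, -⟩ := hP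
      have hirr : Irreducible (res f P w) := by
        refine hIrr ℤ[X] (res f P w) (evalRingHom 0) n (res_monic hF.1 P w)
          ((res_natDegree hF.1 P w).trans hF.2.1) ⟨K, iK, iN, θ, ?_, hgen, hrk⟩
        rw [res_zero]
        exact hθ
      refine hFru r (res f P w) (fun i => res (u i) P w) (fun i => res (v i) P w)
        (fun i => res (c i) P w) (res_monic hF.1 P w) hirr ?_ (hA P hPA w hw)
      intro i
      have h1 := congrArg (fun g => res g P w) (hvc i)
      simp only [res, spr2, Polynomial.map_mul, Polynomial.map_add, Polynomial.map_one] at h1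
      exact h1
    have h := h₁ f u hF E hLF lo N hN
    have e : {P : Fin 2 → ℤ | P ∈ A ∧ (∀ i, lo i ≤ P i ∧ P i < lo i + N) ∧
        ExcPt p n (spr2 f P) (fun i => spr2 (u i) P)} =
        {P : Fin 2 → ℤ | P ∈ E ∧ (∀ i, lo i ≤ P i ∧ P i < lo i + N) ∧
          ExcPt p n (spr2 f P) (fun i => spr2 (u i) P)} := by
      ext P
      constructor
      · rintro ⟨h1, h2, h3⟩
        exact ⟨⟨h1, h3⟩, h2, h3⟩
      · rintro ⟨⟨h1, h3⟩, h2, -⟩
        exact ⟨h1, h2, h3⟩
    rw [e]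
    exact h.trans (mul_le_mul_of_nonneg_right (le_max_left _ _) hNε)

end Pool.Agent.LPW.H24
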